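import Pool.Agent.Helper64.Rig.Basics

/-!
# The tangent space of the covering curve has dimension at least two (MP_148db9_ag, packet TanUp)
-/

namespace Pool.Agent.Helper50.Rig

open MvPolynomial Module Pool.Agent.Helper64.Rig

/-! ## Sums over the fifth roots of unity -/

section roots
variable {R : Type*} [CommRing R] {z : R}

theorem erase0 : (Finset.univ.erase (0 : Fin 5)) = {1, 2, 3, 4} := by decide
theorem erase1 : (Finset.univ.erase (1 : Fin 5)) = {0, 2, 3, 4} := by decide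
theorem erase2 : (Finset.univ.erase (2 : Fin 5)) = {0, 1, 3, 4} := by decide
theorem erase3 : (Finset.univ.erase (3 : Fin 5)) = {0, 1, 2, 4} := by decide
theorem erase4 : (Finset.univ.erase (4 : Fin 5)) = {0, 1, 2, 3} := by decide

theorem prod_four (f : Fin 5 → R) {a b c d : Fin 5} (h1 : a ∉ ({b, c, d} : Finset (Fin 5)))
    (h2 : b ∉ ({c, d} : Finset (Fin 5))) (h3 : c ≠ d) :
    ∏ k ∈ ({a, b, c, d} : Finset (Fin 5)), f k = f a * (f b * (f c * f d)) := by
  rw [Finset.prod_insert h1, Finset.prod_insert h2, Finset.prod_pair h3]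

theorem sum_erase (f g : Fin 5 → R) :
    ∑ k : Fin 5, g k * ∏ k' ∈ Finset.univ.erase k, f k' =
      g 0 * (f 1 * (f 2 * (f 3 * f 4))) + g 1 * (f 0 * (f 2 * (f 3 * f 4))) +
      g 2 * (f 0 * (f 1 * (f 3 * f 4))) + g 3 * (f 0 * (f 1 * (f 2 * f 4))) +
      g 4 * (f 0 * (f 1 * (f 2 * f 3))) := by
  rw [Fin.sum_univ_five, erase0, erase1, erase2, erase3, erase4,
    prod_four f (by decide) (by decide) (by decide), prod_four f (by decide) (by decide) (by decide),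
    prod_four f (by decide) (by decide) (by decide), prod_four f (by decide) (by decide) (by decide),
    prod_four f (by decide) (by decide) (by decide)]

theorem val3 : ((3 : Fin 5) : ℕ) = 3 := rfl
theorem val4 : ((4 : Fin 5) : ℕ) = 4 := rfl

theorem sum_roots_a (h1 : 1 + z + z ^ 2 + z ^ 3 + z ^ 4 = 0) (a b : R) :
    ∑ k : Fin 5, ∏ k' ∈ Finset.univ.erase k, (a + z ^ (k' : ℕ) * b) = 5 * a ^ 4 := by
  have := sum_erase (fun k' : Fin 5 => a + z ^ (k' : ℕ) * b) (fun _ => 1)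
  simp only [one_mul] at this
  rw [this]
  simp only [Fin.val_zero, Fin.val_one, Fin.val_two, val3, val4, pow_zero, pow_one, one_mul]
  linear_combination (4 * a ^ 3 * b + 3 * z * a ^ 2 * b ^ 2 + 2 * z ^ 3 * a * b ^ 3
    + 3 * z ^ 3 * a ^ 2 * b ^ 2 + 2 * z ^ 5 * a * b ^ 3 + z ^ 6 * b ^ 4) * h1

theorem sum_roots_b (h1 : 1 + z + z ^ 2 + z ^ 3 + z ^ 4 = 0) (a b : R) :
    ∑ k : Fin 5, z ^ (k : ℕ) * ∏ k' ∈ Finset.univ.erase k, (a + z ^ (k' : ℕ) * b) = 5 * b ^ 4 := by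
  rw [sum_erase (fun k' : Fin 5 => a + z ^ (k' : ℕ) * b) (fun k => z ^ (k : ℕ))]
  simp only [Fin.val_zero, Fin.val_one, Fin.val_two, val3, val4, pow_zero, pow_one, one_mul]
  linear_combination (-5 * b ^ 4 + a ^ 4 + 5 * z * b ^ 4 + 2 * z * a ^ 3 * b
    + 3 * z ^ 3 * a ^ 2 * b ^ 2 + 2 * z ^ 3 * a ^ 3 * b - 5 * z ^ 5 * b ^ 4
    + 3 * z ^ 5 * a ^ 2 * b ^ 2 + 5 * z ^ 6 * b ^ 4 + 4 * z ^ 6 * a * b ^ 3) * h1

/-- The cofactor of `a + z ^ k * b` in `b ^ 4 - z ^ k * a ^ 4`. -/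
def qq (z a b : R) (k : ℕ) : R :=
  z ^ (4 * k) * b ^ 3 - z ^ (3 * k) * (a * b ^ 2) + z ^ (2 * k) * (a ^ 2 * b) - z ^ k * a ^ 3

theorem sum_qq (h1 : 1 + z + z ^ 2 + z ^ 3 + z ^ 4 = 0) (a b : R) :
    ∑ k : Fin 5, qq z a b k = 0 := by
  rw [Fin.sum_univ_five]
  simp only [qq, Fin.val_zero, Fin.val_one, Fin.val_two, val3, val4]
  linear_combination (b ^ 3 - a * b ^ 2 + a ^ 2 * b - a ^ 3 - z * b ^ 3 + z * a * b ^ 2
    - z * a ^ 2 * b + z ^ 2 * a ^ 2 * b - z ^ 3 * a * b ^ 2 - z ^ 3 * a ^ 2 * b + z ^ 4 * b ^ 3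
    + z ^ 4 * a * b ^ 2 + z ^ 4 * a ^ 2 * b - z ^ 5 * a * b ^ 2 - z ^ 6 * b ^ 3
    + z ^ 7 * a * b ^ 2 + z ^ 8 * b ^ 3 - z ^ 8 * a * b ^ 2 - z ^ 11 * b ^ 3
    + z ^ 12 * b ^ 3) * h1

theorem qq_mul (h5 : z ^ 5 = 1) (a b : R) (k : ℕ) :
    qq z a b k * (a + z ^ k * b) = b ^ 4 - z ^ k * a ^ 4 := by
  have h : z ^ (5 * k) = 1 := by rw [pow_mul, h5, one_pow]
  have e2 : z ^ (2 * k) = (z ^ k) ^ 2 := by rw [← pow_mul, mul_comm]
  have e3 : z ^ (3 * k) = (z ^ k) ^ 3 := by rw [← pow_mul, mul_comm]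
  have e4 : z ^ (4 * k) = (z ^ k) ^ 4 := by rw [← pow_mul, mul_comm]
  have e5 : (z ^ k) ^ 5 = 1 := by rw [← pow_mul, mul_comm, h]
  unfold qq
  rw [e2, e3, e4]
  linear_combination b ^ 4 * e5

end roots

/-! ## The derivation -/

/-- The derivation with the given values. -/
noncomputable def dd (Δ : Jx → MvPolynomial Jx ℂ) :
    Derivation ℂ (MvPolynomial Jx ℂ) (MvPolynomial Jx ℂ) := mkDerivation ℂ Δ

theorem dd_X (Δ : Jx → MvPolynomial Jx ℂ) (j : Jx) : dd Δ (X j) = Δ j := mkDerivation_X _ _ _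

theorem dd_eq (Δ : Jx → MvPolynomial Jx ℂ) (G : MvPolynomial Jx ℂ) :
    dd Δ G = ∑ j, Δ j * pderiv j G := by
  induction G using MvPolynomial.induction_on with
  | C a => simp
  | add p q hp hq => simp only [map_add, hp, hq, mul_add, Finset.sum_add_distrib]
  | mul_X p i hp =>
    rw [Derivation.leibniz, hp, dd_X]
    simp only [Derivation.leibniz, smul_eq_mul, pderiv_X, mul_add, Finset.sum_add_distrib]
    congr 1
    · rw [Finset.sum_eq_single i]
      · simp [mul_comm]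
      · intro j _ hj
        rw [Pi.single_eq_of_ne (Ne.symm hj)]
        simp
      · simp
    · rw [Finset.mul_sum]
      exact Finset.sum_congr rfl fun j _ => by ring

theorem der_prod {ι : Type*} [DecidableEq ι] {A : Type*} [CommRing A] [Algebra ℂ A]
    (D : Derivation ℂ A A) (s : Finset ι) (f : ι → A) :
    D (∏ i ∈ s, f i) = ∑ i ∈ s, (∏ j ∈ s.erase i, f j) * D (f i) := by
  induction s using Finset.induction_on with
  | empty => simp
  | insert a s ha ih =>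
    rw [Finset.prod_insert ha, Derivation.leibniz, ih, Finset.sum_insert ha,
      Finset.erase_insert ha, smul_eq_mul, smul_eq_mul, Finset.mul_sum, add_comm]
    congr 1
    refine Finset.sum_congr rfl fun i hi => ?_
    have hai : a ≠ i := fun h => ha (h ▸ hi)
    rw [Finset.erase_insert_of_ne hai,
      Finset.prod_insert (fun h => ha (Finset.mem_of_mem_erase h))]
    ring

variable {K : Type} [Field K] [Algebra ℂ K] {ζ : ℂ} {x : Jx → K}

theorem aeval_pr (x : Jx → K) (i : Fin 3) : aeval x (pr (X : Jx → MvPolynomial Jx ℂ) i) = pr x i := by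
  simp [pr]

theorem aeval_dd_pr (Δ : Jx → MvPolynomial Jx ℂ) (i : Fin 3) :
    aeval x (dd Δ (pr X i)) =
      ∑ k, aeval x (Δ (i, k)) * ∏ k' ∈ Finset.univ.erase k, x (i, k') := by
  unfold pr
  rw [der_prod, map_sum]
  refine Finset.sum_congr rfl fun k _ => ?_
  rw [map_mul, map_prod, dd_X, mul_comm]
  simp only [aeval_X]

/-- The polynomial vector field of the block `i₀`. -/
noncomputable def Del (ζ : ℂ) (i₀ : Fin 3) (j : Jx) : MvPolynomial Jx ℂ :=
  if j.1 = i₀ then C (1 / 5) * (X j * qq (C ζ) (pr X (i₀ + 1)) (pr X (i₀ + 2)) (j.2 : ℕ))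
  else if j.1 = i₀ + 1 then C (1 / 5) * ∏ k ∈ Finset.univ.erase j.2, X (j.1, k) ^ 4
  else -(C (1 / 5) * (C ζ ^ (j.2 : ℕ) * ∏ k ∈ Finset.univ.erase j.2, X (j.1, k) ^ 4))

theorem fin3 (i : Fin 3) : i + 1 ≠ i ∧ i + 2 ≠ i ∧ i + 2 ≠ i + 1 ∧ i + 1 + 1 = i + 2 ∧
    i + 1 + 2 = i ∧ i + 2 + 1 = i ∧ i + 2 + 2 = i + 1 := by
  revert i; decide

theorem fin3_cases (i j : Fin 3) : j = i ∨ j = i + 1 ∨ j = i + 2 := by
  revert i j; decide

theorem aeval_Del0 (i₀ : Fin 3) (k : Fin 5) : aeval x (Del ζ i₀ (i₀, k)) =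
    algebraMap ℂ K (1 / 5) * (x (i₀, k) *
      qq (algebraMap ℂ K ζ) (pr x (i₀ + 1)) (pr x (i₀ + 2)) (k : ℕ)) := by
  simp only [Del, if_true, map_mul, algHom_C, aeval_X, qq, map_sub, map_add, map_pow, aeval_pr]

theorem aeval_Del1 (i₀ : Fin 3) (k : Fin 5) : aeval x (Del ζ i₀ (i₀ + 1, k)) =
    algebraMap ℂ K (1 / 5) * ∏ k' ∈ Finset.univ.erase k, x (i₀ + 1, k') ^ 4 := by
  obtain ⟨h1, h2, h3, -⟩ := fin3 i₀
  simp only [Del, if_neg h1, if_true, map_mul, algHom_C, map_prod, map_pow, aeval_X]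

theorem aeval_Del2 (i₀ : Fin 3) (k : Fin 5) : aeval x (Del ζ i₀ (i₀ + 2, k)) =
    -(algebraMap ℂ K (1 / 5) * (algebraMap ℂ K ζ ^ (k : ℕ) *
      ∏ k' ∈ Finset.univ.erase k, x (i₀ + 2, k') ^ 4)) := by
  obtain ⟨h1, h2, h3, -⟩ := fin3 i₀
  simp only [Del, if_neg h2, if_neg h3, map_mul, map_neg, algHom_C, map_prod, map_pow, aeval_X]

theorem phi (h : Cov ζ x) : (1 : K) + algebraMap ℂ K ζ + algebraMap ℂ K ζ ^ 2 +
    algebraMap ℂ K ζ ^ 3 + algebraMap ℂ K ζ ^ 4 = 0 := by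
  have h1 : (1 : ℂ) + ζ + ζ ^ 2 + ζ ^ 3 + ζ ^ 4 = 0 := by
    have := h.prim.geom_sum_eq_zero (by norm_num)
    simpa [Finset.sum_range_succ] using this
  have := congrArg (algebraMap ℂ K) h1
  simpa [map_add, map_pow] using this

theorem zeta_five (h : Cov ζ x) : algebraMap ℂ K ζ ^ 5 = 1 := by
  rw [← map_pow, h.prim.pow_eq_one, map_one]

theorem five_inv : (5 : K) * algebraMap ℂ K (1 / 5) = 1 := by
  have : (5 : K) = algebraMap ℂ K 5 := (map_ofNat (algebraMap ℂ K) 5).symm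
  rw [this, ← map_mul]
  norm_num

/-! ### Claim A -/

theorem claimA0 (h : Cov ζ x) (i₀ : Fin 3) : aeval x (dd (Del ζ i₀) (pr X i₀)) = 0 := by
  rw [aeval_dd_pr]
  have : ∀ k : Fin 5, aeval x (Del ζ i₀ (i₀, k)) * ∏ k' ∈ Finset.univ.erase k, x (i₀, k') =
      (algebraMap ℂ K (1 / 5) * pr x i₀) *
        qq (algebraMap ℂ K ζ) (pr x (i₀ + 1)) (pr x (i₀ + 2)) (k : ℕ) := by
    intro k
    rw [aeval_Del0]
    have hp : pr x i₀ = x (i₀, k) * ∏ k' ∈ Finset.univ.erase k, x (i₀, k') :=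
      (Finset.mul_prod_erase Finset.univ (fun k => x (i₀, k)) (Finset.mem_univ k)).symm
    rw [hp]
    ring
  simp only [this]
  rw [← Finset.mul_sum, sum_qq (phi h), mul_zero]

theorem el_eq (i : Fin 3) (k : Fin 5) : el ζ x (i, k) =
    pr x (i + 1) + algebraMap ℂ K ζ ^ (k : ℕ) * pr x (i + 2) := by
  simp only [el, map_pow]

theorem hat_eq' (h : Cov ζ x) (i : Fin 3) (k : Fin 5) :
    ∏ k' ∈ Finset.univ.erase k, x (i, k') ^ 5 =
      ∏ k' ∈ Finset.univ.erase k, (pr x (i + 1) + algebraMap ℂ K ζ ^ (k' : ℕ) * pr x (i + 2)) := by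
  have := hat_eq h (i, k)
  simp only [el_eq] at this
  exact this

theorem claimA1 (h : Cov ζ x) (i₀ : Fin 3) :
    aeval x (dd (Del ζ i₀) (pr X (i₀ + 1))) = pr x (i₀ + 2) ^ 4 := by
  obtain ⟨-, -, -, e1, e2, -, -⟩ := fin3 i₀
  rw [aeval_dd_pr]
  have : ∀ k : Fin 5, aeval x (Del ζ i₀ (i₀ + 1, k)) *
      ∏ k' ∈ Finset.univ.erase k, x (i₀ + 1, k') =
      algebraMap ℂ K (1 / 5) * ∏ k' ∈ Finset.univ.erase k,
        (pr x (i₀ + 2) + algebraMap ℂ K ζ ^ (k' : ℕ) * pr x i₀) := by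
    intro k
    rw [aeval_Del1]
    have := hat_eq' h (i₀ + 1) k
    rw [e1, e2] at this
    rw [← this, mul_assoc, ← Finset.prod_mul_distrib]
    congr 1
    exact Finset.prod_congr rfl fun k' _ => by ring
  simp only [this]
  rw [← Finset.mul_sum, sum_roots_a (phi h)]
  linear_combination pr x (i₀ + 2) ^ 4 * (five_inv (K := K))

theorem claimA2 (h : Cov ζ x) (i₀ : Fin 3) :
    aeval x (dd (Del ζ i₀) (pr X (i₀ + 2))) = -pr x (i₀ + 1) ^ 4 := by
  obtain ⟨-, -, -, -, -, e1, e2⟩ := fin3 i₀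
  rw [aeval_dd_pr]
  have : ∀ k : Fin 5, aeval x (Del ζ i₀ (i₀ + 2, k)) *
      ∏ k' ∈ Finset.univ.erase k, x (i₀ + 2, k') =
      -algebraMap ℂ K (1 / 5) * (algebraMap ℂ K ζ ^ (k : ℕ) * ∏ k' ∈ Finset.univ.erase k,
        (pr x i₀ + algebraMap ℂ K ζ ^ (k' : ℕ) * pr x (i₀ + 1))) := by
    intro k
    rw [aeval_Del2]
    have := hat_eq' h (i₀ + 2) k
    rw [e1, e2] at this
    rw [← this]
    have e : (∏ k' ∈ Finset.univ.erase k, x (i₀ + 2, k') ^ 5) =
        (∏ k' ∈ Finset.univ.erase k, x (i₀ + 2, k') ^ 4) *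
          ∏ k' ∈ Finset.univ.erase k, x (i₀ + 2, k') := by
      rw [← Finset.prod_mul_distrib]
      exact Finset.prod_congr rfl fun k' _ => by ring
    rw [e]
    ring
  simp only [this]
  rw [← Finset.mul_sum, sum_roots_b (phi h)]
  linear_combination -pr x (i₀ + 1) ^ 4 * (five_inv (K := K))

/-! ### Claim B -/

theorem aeval_dd_el (Δ : Jx → MvPolynomial Jx ℂ) (i : Fin 3) (k : Fin 5) :
    aeval x (dd Δ (EE ζ (i, k))) = 5 * x (i, k) ^ 4 * aeval x (Δ (i, k)) +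
      (aeval x (dd Δ (pr X (i + 1))) +
        algebraMap ℂ K ζ ^ (k : ℕ) * aeval x (dd Δ (pr X (i + 2)))) := by
  have e : EE ζ (i, k) = X (i, k) ^ 5 + (pr X (i + 1) +
      C (ζ ^ (k : ℕ)) * pr X (i + 2) : MvPolynomial Jx ℂ) := rfl
  rw [e, map_add, map_add, map_add (dd Δ), Derivation.leibniz_pow, dd_X, Derivation.leibniz,
    derivation_C]
  simp only [smul_eq_mul, mul_zero, add_zero, map_add, map_mul, map_pow, aeval_X, algHom_C,
    nsmul_eq_mul, map_natCast]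
  norm_num
  ring

theorem claimB (h : Cov ζ x) (i₀ : Fin 3) (j : Jx) : aeval x (dd (Del ζ i₀) (EE ζ j)) = 0 := by
  obtain ⟨i, k⟩ := j
  obtain ⟨-, -, -, e1, e2, e3, e4⟩ := fin3 i₀
  rw [aeval_dd_el]
  rcases fin3_cases i₀ i with rfl | rfl | rfl
  · rw [aeval_Del0, claimA1 h, claimA2 h]
    have h5 := pow_five h (i, k)
    rw [el_eq] at h5
    have hq := qq_mul (zeta_five h) (pr x (i + 1)) (pr x (i + 2)) (k : ℕ)
    linear_combination (x (i, k) ^ 5 *
      qq (algebraMap ℂ K ζ) (pr x (i + 1)) (pr x (i + 2)) (k : ℕ)) * (five_inv (K := K)) +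
      qq (algebraMap ℂ K ζ) (pr x (i + 1)) (pr x (i + 2)) (k : ℕ) * h5 - hq
  · rw [aeval_Del1, e1, e2, claimA2 h, claimA0 h]
    have hp : pr x (i₀ + 1) ^ 4 = x (i₀ + 1, k) ^ 4 *
        ∏ k' ∈ Finset.univ.erase k, x (i₀ + 1, k') ^ 4 := by
      unfold pr
      rw [← Finset.prod_pow]
      exact (Finset.mul_prod_erase Finset.univ (fun k => x (i₀ + 1, k) ^ 4)
        (Finset.mem_univ k)).symm
    rw [hp]
    linear_combination (x (i₀ + 1, k) ^ 4 *
      ∏ k' ∈ Finset.univ.erase k, x (i₀ + 1, k') ^ 4) * (five_inv (K := K))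
  · rw [aeval_Del2, e3, e4, claimA1 h, claimA0 h]
    have hp : pr x (i₀ + 2) ^ 4 = x (i₀ + 2, k) ^ 4 *
        ∏ k' ∈ Finset.univ.erase k, x (i₀ + 2, k') ^ 4 := by
      unfold pr
      rw [← Finset.prod_pow]
      exact (Finset.mul_prod_erase Finset.univ (fun k => x (i₀ + 2, k) ^ 4)
        (Finset.mem_univ k)).symm
    rw [hp]
    linear_combination -(algebraMap ℂ K ζ ^ (k : ℕ) * x (i₀ + 2, k) ^ 4 *
      ∏ k' ∈ Finset.univ.erase k, x (i₀ + 2, k') ^ 4) * (five_inv (K := K))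

/-! ### Claim C -/

theorem mem_II {G : MvPolynomial Jx ℂ} : G ∈ II x ↔ aeval x G = 0 := RingHom.mem_ker

theorem aeval_EE (h : Cov ζ x) (j : Jx) : aeval x (EE ζ j) = 0 := by
  have := h.rel j
  simp only [EE, el, map_add, map_pow, aeval_X, map_mul, aeval_pr]
  simpa [el] using this

theorem claimC (hLoc : StmtLoc) (h : Cov ζ x) (i₀ : Fin 3) {G : MvPolynomial Jx ℂ}
    (hG : G ∈ II x) : dd (Del ζ i₀) G ∈ II x := by
  obtain ⟨H, hH, hHG⟩ := hLoc K ζ x h G (mem_II.1 hG)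
  have key : ∀ F ∈ Ideal.span (Set.range (EE ζ)),
      aeval x F = 0 ∧ aeval x (dd (Del ζ i₀) F) = 0 := by
    intro F hF
    induction hF using Submodule.span_induction with
    | mem F hF =>
      obtain ⟨j, rfl⟩ := hF
      exact ⟨aeval_EE h j, claimB h i₀ j⟩
    | zero => simp
    | add F G _ _ hF hG =>
      refine ⟨?_, ?_⟩
      · rw [map_add, hF.1, hG.1, add_zero]
      · rw [map_add, map_add, hF.2, hG.2, add_zero]
    | smul a F _ hF =>
      refine ⟨?_, ?_⟩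
      · rw [smul_eq_mul, map_mul, hF.1, mul_zero]
      · rw [smul_eq_mul, Derivation.leibniz, smul_eq_mul, smul_eq_mul, map_add, map_mul, map_mul,
          hF.1, hF.2, mul_zero, zero_mul, add_zero]
  have h2 := (key _ hHG).2
  rw [Derivation.leibniz, smul_eq_mul, smul_eq_mul, map_add, map_mul, map_mul, mem_II.1 hG,
    zero_mul, add_zero] at h2
  exact mem_II.2 ((mul_eq_zero.1 h2).resolve_left hH)

/-! ### Claim D -/

theorem euler (h : Cov ζ x) {v : Jx → ℂ} (hv : ∀ G ∈ II x, eval v G = 0) {G : MvPolynomial Jx ℂ}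
    (hG : G ∈ II x) : ∑ i, v i * eval v (pderiv i G) = 0 := by
  have h1 : ∀ d, ∑ i, v i * eval v (pderiv i (homogeneousComponent d G)) = 0 := by
    intro d
    have h2 := (homogeneousComponent_isHomogeneous d G).sum_X_mul_pderiv
    have h3 := congrArg (eval v) h2
    rw [map_sum, map_nsmul, hv _ (mem_II.2 (h.graded G (mem_II.1 hG) d)), smul_zero] at h3
    simpa using h3
  have h4 : G = ∑ d ∈ Finset.range (G.totalDegree + 1), homogeneousComponent d G :=
    (sum_homogeneousComponent G).symm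
  rw [h4]
  simp only [map_sum, Finset.mul_sum]
  rw [Finset.sum_comm]
  exact Finset.sum_eq_zero fun d _ => h1 d

theorem pr_homog (i : Fin 3) : (pr (X : Jx → MvPolynomial Jx ℂ) i).IsHomogeneous 5 := by
  have := IsHomogeneous.prod (R := ℂ) (σ := Jx) Finset.univ (fun k : Fin 5 => X (i, k))
    (fun _ => 1) fun k _ => isHomogeneous_X ℂ (i, k)
  simpa [pr] using this

theorem eval_pr (v : Jx → ℂ) (i : Fin 3) : eval v (pr X i) = pr v i := by
  simp [pr]

theorem pf_TanUp (hLoc : StmtLoc) : StmtTanUp := by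
  intro K _ _ ζ x h v hv0 hv
  set P : Fin 3 → ℂ := fun i => pr v i with hP
  -- not all of the products vanish
  have hrel : ∀ j, v j ^ 5 + (P (j.1 + 1) + ζ ^ (j.2 : ℕ) * P (j.1 + 2)) = 0 := by
    intro j
    have := hv (EE ζ j) (mem_II.2 (aeval_EE h j))
    simpa [EE, el, eval_pr, hP] using this
  obtain ⟨i₀, hi₀⟩ : ∃ i, P i ≠ 0 := by
    by_contra hcon
    push Not at hcon
    apply hv0
    funext j
    have := hrel j
    rw [hcon, hcon] at this
    simpa using this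
  have hF : P i₀ ^ 5 + P (i₀ + 1) ^ 5 + P (i₀ + 2) ^ 5 = 0 := by
    have h1 : pr X i₀ ^ 5 + pr X (i₀ + 1) ^ 5 + pr X (i₀ + 2) ^ 5 ∈ II x := by
      rw [mem_II, map_add, map_add, map_pow, map_pow, map_pow, aeval_pr, aeval_pr, aeval_pr,
        pr_pow_five h i₀]
      ring
    have := hv _ h1
    simpa [eval_pr, hP] using this
  set w : Jx → ℂ := fun j => eval v (Del ζ i₀ j) with hw
  have hwsum : ∀ G, eval v (dd (Del ζ i₀) G) = ∑ j, w j * eval v (pderiv j G) := by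
    intro G
    rw [dd_eq, map_sum]
    exact Finset.sum_congr rfl fun j _ => map_mul _ _ _
  refine ⟨v, w, ?_, fun G hG => ⟨euler h hv hG, ?_⟩⟩
  · rw [LinearIndependent.pair_iff]
    have key : ∀ t : ℂ, w ≠ t • v := by
      intro t ht
      have hd : ∀ i, eval v (dd (Del ζ i₀) (pr X i)) = t * (5 * P i) := by
        intro i
        rw [hwsum, ht]
        have h2 := congrArg (eval v) (pr_homog i).sum_X_mul_pderiv
        rw [map_sum, map_nsmul, eval_pr] at h2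
        simp only [map_mul, eval_X, nsmul_eq_mul] at h2
        have h3 : ∑ j, (t • v) j * eval v (pderiv j (pr X i)) =
            t * ∑ j, v j * eval v (pderiv j (pr X i)) := by
          rw [Finset.mul_sum]
          exact Finset.sum_congr rfl fun j _ => by rw [Pi.smul_apply, smul_eq_mul]; ring
        rw [h3, h2]
        norm_num [hP]
      have e0 : t * (5 * P i₀) = 0 := by
        rw [← hd]
        exact hv _ (mem_II.2 (claimA0 h i₀))
      have ht0 : t = 0 := (mul_eq_zero.1 e0).resolve_right (mul_ne_zero (by norm_num) hi₀)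
      have e1 : t * (5 * P (i₀ + 1)) = P (i₀ + 2) ^ 4 := by
        rw [← hd]
        have := hv (dd (Del ζ i₀) (pr X (i₀ + 1)) - pr X (i₀ + 2) ^ 4) (mem_II.2 (by
          rw [map_sub, map_pow, claimA1 h, aeval_pr, sub_self]))
        rw [map_sub, map_pow, eval_pr] at this
        exact sub_eq_zero.1 this
      have e2 : t * (5 * P (i₀ + 2)) = -P (i₀ + 1) ^ 4 := by
        rw [← hd]
        have := hv (dd (Del ζ i₀) (pr X (i₀ + 2)) + pr X (i₀ + 1) ^ 4) (mem_II.2 (by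
          rw [map_add, map_pow, claimA2 h, aeval_pr, neg_add_cancel]))
        rw [map_add, map_pow, eval_pr] at this
        exact eq_neg_of_add_eq_zero_left this
      rw [ht0, zero_mul] at e1 e2
      have f1 : P (i₀ + 2) = 0 := by simpa using e1.symm
      have f2 : P (i₀ + 1) = 0 := by simpa using e2.symm
      rw [f1, f2] at hF
      exact hi₀ (by simpa using hF)
    intro a b hab
    have hb : b = 0 := by
      by_contra hb
      apply key (-(b⁻¹ * a))
      have : b • w = -(a • v) := eq_neg_of_add_eq_zero_right hab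
      have h2 := congrArg (fun u => b⁻¹ • u) this
      simp only [smul_smul, inv_mul_cancel₀ hb, one_smul, smul_neg] at h2
      rw [h2, neg_smul]
    refine ⟨?_, hb⟩
    rw [hb, zero_smul, add_zero] at hab
    exact (smul_eq_zero.1 hab).resolve_right hv0
  · rw [← hwsum]
    exact hv _ (claimC hLoc h i₀ hG)

end Pool.Agent.Helper50.Rig
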